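import Pool.Agent.H40.Litt.Lower

set_option autoImplicit false

/-!
# Asymptotics of the Ramsey numbers of colourings of bounded Littlestone dimension
-/

namespace Pool.Agent.H40.Litt

open Finset Filter Topology

/-- some colouring of the pairs of `n` vertices with `r` colours has Littlestone dimension at most
`d` and no one-coloured set of `k` vertices -/
def Good (r d k n : ℕ) : Prop :=
  ∃ c : Fin n → Fin n → Fin r, Sym c ∧ LdimLE c d ∧ NoMono c k

/-- some colouring of the pairs of `n` vertices with `r` colours contains no complete binary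
Erdős–Szekeres tree of depth `d + 1` and no one-coloured set of `k` vertices -/
def GoodI (r d k n : ℕ) : Prop :=
  ∃ c : Fin n → Fin n → Fin r, Sym c ∧ ¬ ITree c (d + 1) Set.univ ∧ NoMono c k

/-- The largest number of vertices of a colouring with `r` colours without complete binary
Erdős–Szekeres tree of depth `d + 1` and without one-coloured set of `k` vertices. -/
noncomputable def largestI (r d k : ℕ) : ℕ := sSup {n : ℕ | GoodI r d k n}

theorem Good.goodI {r d k n : ℕ} (h : Good r d k n) : GoodI r d k n := by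
  obtain ⟨c, h1, h2, h3⟩ := h
  exact ⟨c, h1, fun h4 => h2 h4.tree, h3⟩

/-- The largest number of vertices of a colouring with `r` colours of Littlestone dimension at most
`d` without one-coloured set of `k` vertices. -/
noncomputable def largest (r d k : ℕ) : ℕ := sSup {n : ℕ | Good r d k n}

theorem goodI_le {r d k n : ℕ} (hk : 1 ≤ k) (h : GoodI r d k n) :
    n ≤ ∑ j ∈ range (d + 1), (r - 1) ^ j * (r * (k - 1)).choose (j + 1) := by
  obtain ⟨c, h1, h2, h3⟩ := h
  have := upper_bound c h1 hk h2 h3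
  rwa [Fintype.card_fin] at this

theorem good_le {r d k n : ℕ} (hk : 1 ≤ k) (h : Good r d k n) :
    n ≤ ∑ j ∈ range (d + 1), (r - 1) ^ j * (r * (k - 1)).choose (j + 1) :=
  goodI_le hk h.goodI

theorem goodI_bdd {r d k : ℕ} (hk : 1 ≤ k) : BddAbove {n : ℕ | GoodI r d k n} :=
  ⟨_, fun _ hn => goodI_le hk hn⟩

theorem good_bdd {r d k : ℕ} (hk : 1 ≤ k) : BddAbove {n : ℕ | Good r d k n} :=
  ⟨_, fun _ hn => good_le hk hn⟩

theorem good_zero {r d k : ℕ} (hk : 1 ≤ k) : Good r d k 0 := by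
  refine ⟨fun x => x.elim0, fun x => x.elim0, ?_, ?_⟩
  · intro h
    obtain ⟨x, -⟩ := h.nonempty
    exact x.elim0
  · intro S hS
    have : S = ∅ := by
      ext x; exact x.elim0
    rw [this, card_empty] at hS
    omega

theorem largest_good {r d k : ℕ} (hk : 1 ≤ k) : Good r d k (largest r d k) :=
  Nat.sSup_mem ⟨0, good_zero hk⟩ (good_bdd hk)

theorem le_largest {r d k n : ℕ} (hk : 1 ≤ k) (h : Good r d k n) : n ≤ largest r d k :=
  le_csSup (good_bdd hk) h

theorem largestI_good {r d k : ℕ} (hk : 1 ≤ k) : GoodI r d k (largestI r d k) :=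
  Nat.sSup_mem ⟨0, (good_zero hk).goodI⟩ (goodI_bdd hk)

theorem le_largestI {r d k n : ℕ} (hk : 1 ≤ k) (h : GoodI r d k n) : n ≤ largestI r d k :=
  le_csSup (goodI_bdd hk) h

theorem largest_le_largestI {r d k : ℕ} (hk : 1 ≤ k) : largest r d k ≤ largestI r d k :=
  le_largestI hk (largest_good hk).goodI

theorem largestI_le {r d k : ℕ} (hk : 1 ≤ k) :
    largestI r d k ≤ ∑ j ∈ range (d + 1), (r - 1) ^ j * (r * (k - 1)).choose (j + 1) :=
  goodI_le hk (largestI_good hk)

/-- `∑_{j < D} (r-1)^j C(m, j+1) ≤ (e (r-1) m / D) ^ D` for `D ≤ (r - 1) m`. -/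
theorem sum_le_pow {r m D : ℕ} (hr : 2 ≤ r) (hD : 1 ≤ D) (hDm : D ≤ (r - 1) * m) :
    ((∑ j ∈ range D, (r - 1) ^ j * m.choose (j + 1) : ℕ) : ℝ) ≤
      (Real.exp 1 * (((r - 1) * m : ℕ) : ℝ) / D) ^ D := by
  set M : ℕ := (r - 1) * m with hM
  have hD0 : (0 : ℝ) < D := by exact_mod_cast hD
  have hM0 : (0 : ℝ) ≤ (M : ℝ) := Nat.cast_nonneg _
  have hMD : (1 : ℝ) ≤ (M : ℝ) / D := by
    rw [le_div_iff₀ hD0, one_mul]; exact_mod_cast hDm
  have h1 : ∀ j ∈ range D, (((r - 1) ^ j * m.choose (j + 1) : ℕ) : ℝ) ≤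
      ((M : ℝ) / D) ^ D * ((D : ℝ) ^ (j + 1) / (j + 1).factorial) := by
    intro j hj
    rw [mem_range] at hj
    have e1 : (((r - 1) ^ j * m.choose (j + 1) : ℕ) : ℝ) ≤
        (M : ℝ) ^ (j + 1) / (j + 1).factorial := by
      have e2 : (m.choose (j + 1) : ℝ) ≤ (m : ℝ) ^ (j + 1) / (j + 1).factorial :=
        Nat.choose_le_pow_div _ _
      have e3 : (((r - 1) ^ j : ℕ) : ℝ) ≤ (((r - 1) ^ (j + 1) : ℕ) : ℝ) := by
        exact_mod_cast Nat.pow_le_pow_right (by omega) (by omega)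
      rw [Nat.cast_mul]
      calc (((r - 1) ^ j : ℕ) : ℝ) * (m.choose (j + 1) : ℝ)
          ≤ (((r - 1) ^ (j + 1) : ℕ) : ℝ) * ((m : ℝ) ^ (j + 1) / (j + 1).factorial) :=
            mul_le_mul e3 e2 (Nat.cast_nonneg _) (Nat.cast_nonneg _)
        _ = (M : ℝ) ^ (j + 1) / (j + 1).factorial := by
            rw [hM]; push_cast; rw [mul_pow]; ring
    refine e1.trans ?_
    have e4 : (M : ℝ) ^ (j + 1) = ((M : ℝ) / D) ^ (j + 1) * (D : ℝ) ^ (j + 1) := by
      rw [← mul_pow, div_mul_cancel₀ _ hD0.ne']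
    rw [e4, mul_div_assoc]
    apply mul_le_mul_of_nonneg_right _ (by positivity)
    exact pow_le_pow_right₀ hMD (by omega)
  have h2 : ∑ j ∈ range D, (D : ℝ) ^ (j + 1) / (j + 1).factorial ≤ Real.exp D := by
    have e1 : ∑ j ∈ range (D + 1), (D : ℝ) ^ j / j.factorial ≤ Real.exp D :=
      Real.sum_le_exp_of_nonneg hD0.le _
    rw [sum_range_succ'] at e1
    have : (0 : ℝ) ≤ (D : ℝ) ^ 0 / (Nat.factorial 0) := by positivity
    linarith
  push_cast [Nat.cast_sum] at *
  calc ((∑ j ∈ range D, ((r - 1 : ℕ) : ℝ) ^ j * (m.choose (j + 1) : ℝ)))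
      ≤ ∑ j ∈ range D, ((M : ℝ) / D) ^ D * ((D : ℝ) ^ (j + 1) / (j + 1).factorial) :=
        sum_le_sum h1
    _ = ((M : ℝ) / D) ^ D * ∑ j ∈ range D, (D : ℝ) ^ (j + 1) / (j + 1).factorial := by
        rw [mul_sum]
    _ ≤ ((M : ℝ) / D) ^ D * Real.exp D := by
        apply mul_le_mul_of_nonneg_left h2 (by positivity)
    _ = (Real.exp 1 * (M : ℝ) / D) ^ D := by
        rw [← Real.exp_one_pow, ← mul_pow]
        congr 1
        ring

end Pool.Agent.H40.Litt
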