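import Pool.Agent.H40.Litt.Asy

set_option autoImplicit false

/-!
# Asymptotics of the Ramsey numbers of colourings of bounded Littlestone dimension: final form
-/

namespace Pool.Agent.H40.Litt

open Finset Filter Topology

theorem LdimLE.mono {V : Type} {r : ℕ} {c : V → V → Fin r} {d d' : ℕ} (h : d ≤ d')
    (hd : LdimLE c d) : LdimLE c d' := by
  induction h with
  | refl => exact hd
  | step _ ih => exact fun h1 => ih h1.pred

theorem noITree_mono {V : Type} {r : ℕ} {c : V → V → Fin r} {d d' : ℕ} (h : d ≤ d')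
    (hd : ¬ ITree c (d + 1) Set.univ) : ¬ ITree c (d' + 1) Set.univ := by
  induction h with
  | refl => exact hd
  | step _ ih => exact fun h1 => ih h1.pred

/-- The upper bound for the logarithm. -/
theorem log_largest_le {r d k : ℕ} (hr : 2 ≤ r) (hd : 1 ≤ d) (hdk : d + 2 ≤ k) :
    Real.log (largestI r d k) ≤ (d + 1) * (Real.log (k / d) + (1 + 2 * Real.log r)) := by
  have hk1 : 1 ≤ k := by omega
  have hd0 : (0 : ℝ) < d := by exact_mod_cast hd
  have hk0 : (0 : ℝ) < k := by exact_mod_cast hk1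
  have hr0 : (0 : ℝ) < r := by
    have : 0 < r := by omega
    exact_mod_cast this
  have hDm : d + 1 ≤ (r - 1) * (r * (k - 1)) := by
    have e1 : 1 ≤ r - 1 := by omega
    have e2 : k - 1 ≤ r * (k - 1) := Nat.le_mul_of_pos_left _ (by omega)
    calc d + 1 ≤ 1 * (k - 1) := by omega
      _ ≤ (r - 1) * (r * (k - 1)) := Nat.mul_le_mul e1 e2
  have h1 : ((largestI r d k : ℕ) : ℝ) ≤
      (Real.exp 1 * (((r - 1) * (r * (k - 1)) : ℕ) : ℝ) / ((d + 1 : ℕ) : ℝ)) ^ (d + 1) := by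
    have e1 : ((largestI r d k : ℕ) : ℝ) ≤
        ((∑ j ∈ range (d + 1), (r - 1) ^ j * (r * (k - 1)).choose (j + 1) : ℕ) : ℝ) := by
      exact_mod_cast largestI_le hk1
    exact e1.trans (sum_le_pow hr (by omega) hDm)
  have h2 : Real.exp 1 * (((r - 1) * (r * (k - 1)) : ℕ) : ℝ) / ((d + 1 : ℕ) : ℝ) ≤
      Real.exp 1 * (r ^ 2 * k) / d := by
    have e1 : (((r - 1) * (r * (k - 1)) : ℕ) : ℝ) ≤ r ^ 2 * k := by
      have : (r - 1) * (r * (k - 1)) ≤ r ^ 2 * k := by
        calc (r - 1) * (r * (k - 1)) ≤ r * (r * k) :=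
              Nat.mul_le_mul (Nat.sub_le _ _) (Nat.mul_le_mul_left _ (Nat.sub_le _ _))
          _ = r ^ 2 * k := by ring
      exact_mod_cast this
    apply div_le_div₀ (by positivity) _ hd0 (by push_cast; linarith)
    exact mul_le_mul_of_nonneg_left e1 (Real.exp_pos 1).le
  have h3 : 0 ≤ Real.exp 1 * (((r - 1) * (r * (k - 1)) : ℕ) : ℝ) / ((d + 1 : ℕ) : ℝ) := by
    positivity
  have h4 : ((largestI r d k : ℕ) : ℝ) ≤ (Real.exp 1 * (r ^ 2 * k) / d) ^ (d + 1) :=
    h1.trans (pow_le_pow_left₀ h3 h2 _)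
  rcases Nat.eq_zero_or_pos (largestI r d k) with h5 | h5
  · rw [h5, Nat.cast_zero, Real.log_zero]
    have e1 : 0 ≤ Real.log ((k : ℝ) / d) := by
      apply Real.log_nonneg
      rw [le_div_iff₀ hd0, one_mul]
      exact_mod_cast (show d ≤ k by omega)
    have e2 : 0 ≤ Real.log (r : ℝ) := Real.log_nonneg (by exact_mod_cast (show 1 ≤ r by omega))
    positivity
  · have h6 := Real.log_le_log (by exact_mod_cast h5) h4
    rw [Real.log_pow] at h6
    have h7 : Real.log (Real.exp 1 * (r ^ 2 * k) / d) =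
        Real.log (k / d) + (1 + 2 * Real.log r) := by
      rw [Real.log_div (by positivity) hd0.ne', Real.log_mul (by positivity) (by positivity),
        Real.log_mul (by positivity) hk0.ne', Real.log_exp, Real.log_pow,
        Real.log_div hk0.ne' hd0.ne']
      push_cast
      ring
    rw [h7] at h6
    push_cast at h6
    exact h6

/-- the upper bound, asymptotic form -/
theorem upper_asy (r : ℕ) (hr : 2 ≤ r) (ε : ℝ) (hε : 0 < ε) : ∃ C : ℝ, 3 ≤ C ∧ ∀ d k : ℕ,
    C ≤ d → C * d ≤ k → Real.log (largestI r d k) ≤ (1 + ε) * (d * Real.log (k / d)) := by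
  set A : ℝ := 1 + 2 * Real.log r with hA
  have hA1 : 1 ≤ A := by
    have : 0 ≤ Real.log (r : ℝ) := Real.log_nonneg (by exact_mod_cast (show 1 ≤ r by omega))
    linarith
  refine ⟨max 3 (max (2 / ε) (Real.exp (4 * A / ε))), le_max_left _ _, ?_⟩
  intro d k h1 h2
  have c1 : (3 : ℝ) ≤ d := (le_max_left _ _).trans h1
  have c2 : 2 / ε ≤ d := ((le_max_left _ _).trans (le_max_right _ _)).trans h1
  have hd0 : (0 : ℝ) < d := by linarith
  have c3 : Real.exp (4 * A / ε) * d ≤ k :=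
    (mul_le_mul_of_nonneg_right ((le_max_right _ _).trans (le_max_right _ _)) hd0.le).trans h2
  have c4 : 3 * (d : ℝ) ≤ k := (mul_le_mul_of_nonneg_right (le_max_left _ _) hd0.le).trans h2
  have hL : 4 * A / ε ≤ Real.log (k / d) := by
    rw [Real.le_log_iff_exp_le (by
      have : (0 : ℝ) < k := by linarith
      positivity), le_div_iff₀ hd0]
    exact c3
  have hL0 : 0 < Real.log (k / d) := lt_of_lt_of_le (by positivity) hL
  have hd1 : 1 ≤ d := by
    have : (1 : ℝ) ≤ d := by linarith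
    exact_mod_cast this
  have hdk : d + 2 ≤ k := by
    have : (d : ℝ) + 2 ≤ k := by linarith
    exact_mod_cast this
  refine (log_largest_le hr hd1 hdk).trans ?_
  rw [← hA]
  rw [div_le_iff₀ hε] at c2 hL
  have e1 : Real.log (k / d) ≤ ε / 2 * (d * Real.log (k / d)) := by nlinarith
  have e2 : (d + 1) * A ≤ 2 * d * A := by
    apply mul_le_mul_of_nonneg_right _ (by linarith)
    linarith
  have e3 : 2 * d * A ≤ ε / 2 * (d * Real.log (k / d)) := by nlinarith
  nlinarith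

/-- the lower bound, asymptotic form -/
theorem lower_asy' (r : ℕ) (hr : 2 ≤ r) (ε : ℝ) (hε : 0 < ε) (hε1 : ε ≤ 1) : ∃ C : ℝ, 3 ≤ C ∧
    ∀ d k : ℕ, C ≤ d → C * d ≤ k →
      (1 - ε) * (d * Real.log (k / d)) ≤ Real.log (largest r d k) := by
  obtain ⟨C, hC, h⟩ := lower_asy ε hε hε1
  refine ⟨max C 3, le_max_right _ _, ?_⟩
  intro d k h1 h2
  have hdn : (0 : ℝ) ≤ d := Nat.cast_nonneg _
  have c1 : C ≤ d := (le_max_left _ _).trans h1
  have c2 : C * d ≤ k := (mul_le_mul_of_nonneg_right (le_max_left _ _) hdn).trans h2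
  have c3 : (3 : ℝ) ≤ d := (le_max_right _ _).trans h1
  have c4 : 3 * (d : ℝ) ≤ k := (mul_le_mul_of_nonneg_right (le_max_right _ _) hdn).trans h2
  have hk2 : 2 ≤ k := by
    have : (2 : ℝ) ≤ k := by linarith
    exact_mod_cast this
  obtain ⟨n, G, g1, g2, g3, g4, g5⟩ := h d k c1 c2
  obtain ⟨s, rfl⟩ : ∃ s, r = s + 2 := ⟨r - 2, by omega⟩
  refine g5.trans (Real.log_le_log (by exact_mod_cast g4) ?_)
  have : n ≤ largest (s + 2) d k := le_largest (by omega)
    ⟨ofGraph G s, ofGraph_sym G s, fun h1 => g1 s h1.pred, ofGraph_noMono G s k hk2 g2 g3⟩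
  exact_mod_cast this

/-- **Sharp form.** -/
theorem sharp (r : ℕ) (hr : 2 ≤ r) (ε : ℝ) (hε : 0 < ε) : ∃ C : ℝ, 3 ≤ C ∧ ∀ d k : ℕ,
    C ≤ d → C * d ≤ k →
    |Real.log (largest r d k) - d * Real.log (k / d)| ≤ ε * (d * Real.log (k / d)) ∧
    |Real.log (largestI r d k) - d * Real.log (k / d)| ≤ ε * (d * Real.log (k / d)) := by
  obtain ⟨C1, hC1, h1⟩ := upper_asy r hr ε hε
  obtain ⟨C2, hC2, h2⟩ := lower_asy' r hr (min ε 1) (by positivity) (min_le_right _ _)
  refine ⟨max C1 C2, hC1.trans (le_max_left _ _), ?_⟩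
  intro d k hd hk
  have hdn : (0 : ℝ) ≤ d := Nat.cast_nonneg _
  have a1 := h1 d k ((le_max_left _ _).trans hd)
    ((mul_le_mul_of_nonneg_right (le_max_left _ _) hdn).trans hk)
  have a2 := h2 d k ((le_max_right _ _).trans hd)
    ((mul_le_mul_of_nonneg_right (le_max_right _ _) hdn).trans hk)
  have hd3 : (3 : ℝ) ≤ d := hC1.trans ((le_max_left _ _).trans hd)
  have hk3 : 3 * (d : ℝ) ≤ k :=
    (mul_le_mul_of_nonneg_right (hC1.trans (le_max_left _ _)) hdn).trans hk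
  have hk1 : 1 ≤ k := by
    have : (1 : ℝ) ≤ k := by linarith
    exact_mod_cast this
  have a3 : Real.log (largest r d k) ≤ Real.log (largestI r d k) := by
    rcases Nat.eq_zero_or_pos (largest r d k) with h0 | h0
    · rw [h0, Nat.cast_zero, Real.log_zero]
      exact Real.log_natCast_nonneg _
    · exact Real.log_le_log (by exact_mod_cast h0) (by exact_mod_cast largest_le_largestI hk1)
  have hL : 0 ≤ Real.log ((k : ℝ) / d) := by
    apply Real.log_nonneg
    rw [le_div_iff₀ (by linarith)]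
    linarith
  have hM : 0 ≤ (d : ℝ) * Real.log (k / d) := by positivity
  have hmin : min ε 1 * (d * Real.log (k / d)) ≤ ε * (d * Real.log (k / d)) :=
    mul_le_mul_of_nonneg_right (min_le_left _ _) hM
  rw [abs_le, abs_le]
  refine ⟨⟨?_, ?_⟩, ⟨?_, ?_⟩⟩ <;> linarith

/-- **Limit form.** -/
theorem limit_form (r : ℕ) (hr : 2 ≤ r) (d : ℕ → ℕ) (h1 : Tendsto d atTop atTop)
    (h2 : Tendsto (fun k => (d k : ℝ) / k) atTop (𝓝 0)) :
    Tendsto (fun k => Real.log (largest r (d k) k) / (d k * Real.log (k / d k))) atTop (𝓝 1) ∧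
    Tendsto (fun k => Real.log (largestI r (d k) k) / (d k * Real.log (k / d k))) atTop (𝓝 1) := by
  rw [Metric.tendsto_atTop, Metric.tendsto_atTop]
  have key : ∀ ε > 0, ∃ N, ∀ n ≥ N,
      dist (Real.log (largest r (d n) n) / (d n * Real.log (n / d n))) 1 < ε ∧
      dist (Real.log (largestI r (d n) n) / (d n * Real.log (n / d n))) 1 < ε := by
    intro ε hε
    obtain ⟨C, hC, h⟩ := sharp r hr (ε / 2) (by positivity)
    have hC0 : 0 < C := by linarith
    have e1 : ∀ᶠ k : ℕ in atTop, C ≤ (d k : ℝ) :=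
      (tendsto_natCast_atTop_atTop.comp h1).eventually_ge_atTop C
    have e2 : ∀ᶠ k : ℕ in atTop, (d k : ℝ) / k ≤ 1 / C :=
      (h2.eventually_lt_const (show (0 : ℝ) < 1 / C by positivity)).mono fun _ h => h.le
    obtain ⟨K, hK⟩ := eventually_atTop.1 ((e1.and e2).and (eventually_ge_atTop 1))
    refine ⟨K, fun k hk => ?_⟩
    obtain ⟨⟨g1, g2⟩, g3⟩ := hK k hk
    have hk0 : (0 : ℝ) < k := by exact_mod_cast g3
    have hd0 : (0 : ℝ) < d k := by linarith
    have g4 : C * d k ≤ k := by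
      rw [div_le_div_iff₀ hk0 hC0] at g2
      linarith
    obtain ⟨g6, g7⟩ := h (d k) k g1 g4
    have hlog : 1 ≤ Real.log ((k : ℝ) / d k) := by
      have hx3 : (3 : ℝ) ≤ k / d k := by
        rw [le_div_iff₀ hd0]
        exact (mul_le_mul_of_nonneg_right hC hd0.le).trans g4
      rw [Real.le_log_iff_exp_le (by linarith)]
      have := Real.exp_one_lt_d9
      linarith
    have hM : 0 < (d k : ℝ) * Real.log (k / d k) := by positivity
    have e4 : ε / 2 * (d k * Real.log (k / d k)) < ε * (d k * Real.log (k / d k)) := by nlinarith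
    have fin : ∀ y : ℝ, |y - d k * Real.log (k / d k)| ≤ ε / 2 * (d k * Real.log (k / d k)) →
        dist (y / (d k * Real.log (k / d k))) 1 < ε := by
      intro y hy
      rw [Real.dist_eq]
      have e3 : y / (d k * Real.log (k / d k)) - 1 =
          (y - d k * Real.log (k / d k)) / (d k * Real.log (k / d k)) := by
        field_simp
      rw [e3, abs_div, abs_of_pos hM, div_lt_iff₀ hM]
      linarith
    exact ⟨fin _ g6, fin _ g7⟩
  constructor
  · intro ε hε
    obtain ⟨N, hN⟩ := key ε hε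
    exact ⟨N, fun n hn => (hN n hn).1⟩
  · intro ε hε
    obtain ⟨N, hN⟩ := key ε hε
    exact ⟨N, fun n hn => (hN n hn).2⟩

/-- **Exponentially large colourings.** -/
theorem inverse_form (r : ℕ) (hr : 2 ≤ r) (ε : ℝ) (hε : 0 < ε) (hε1 : ε < 1) :
    ∃ θ₀ : ℝ, 0 < θ₀ ∧ ∀ θ : ℝ, 0 < θ → θ < θ₀ → ∃ K : ℕ, ∀ k : ℕ, K ≤ k →
      (∀ (n : ℕ) (c : Fin n → Fin n → Fin r), Sym c → NoMono c k → Real.exp (θ * k) ≤ n →
        ∀ d : ℕ, ¬ ITree c (d + 1) Set.univ → (1 - ε) * (θ / Real.log (1 / θ)) * k ≤ d) ∧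
      (∃ (n : ℕ) (c : Fin n → Fin n → Fin r), Sym c ∧ NoMono c k ∧ Real.exp (θ * k) ≤ n ∧
        LdimLE c ⌊(1 + ε) * (θ / Real.log (1 / θ)) * k⌋₊) := by
  obtain ⟨C1, hC1, hup⟩ := upper_asy r hr (ε / 8) (by positivity)
  obtain ⟨C2, hC2, hlo⟩ := lower_asy' r hr (ε / 8) (by positivity) (by linarith)
  set C := max C1 C2 with hC
  have hC3 : 3 ≤ C := hC1.trans (le_max_left _ _)
  -- conditions on `Λ = log (1 / θ)`
  have hev : ∀ᶠ Λ : ℝ in atTop, 1 + Real.log (2 * Λ / (1 - ε)) / Λ ≤ 1 + ε / 8 ∧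
      2 ≤ Λ ∧ 2 * C ≤ Λ := by
    have t1 : Tendsto (fun Λ : ℝ => Real.log (2 * Λ / (1 - ε)) / Λ) atTop (𝓝 0) := by
      have t2 : Tendsto (fun Λ : ℝ => Real.log Λ / Λ) atTop (𝓝 0) := by
        have := Real.isLittleO_log_id_atTop.tendsto_div_nhds_zero
        simpa using this
      have t3 : Tendsto (fun Λ : ℝ => Real.log (2 / (1 - ε)) / Λ) atTop (𝓝 0) :=
        tendsto_const_nhds.div_atTop tendsto_id
      have t4 := t2.add t3
      rw [add_zero] at t4
      refine t4.congr' ?_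
      filter_upwards [eventually_gt_atTop 0] with Λ hΛ
      rw [← add_div, ← Real.log_mul hΛ.ne' (by
        have : 0 < 1 - ε := by linarith
        positivity)]
      congr 2
      ring
    have t5 := t1.eventually_lt_const (show (0 : ℝ) < ε / 8 by positivity)
    filter_upwards [t5, eventually_ge_atTop 2, eventually_ge_atTop (2 * C)] with Λ a1 a2 a3
    exact ⟨by linarith, a2, a3⟩
  obtain ⟨Λ0, hΛ0⟩ := eventually_atTop.1 hev
  refine ⟨Real.exp (-(max Λ0 1)), Real.exp_pos _, ?_⟩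
  intro θ hθ0 hθ1
  obtain ⟨Λ, hΛ⟩ : ∃ Λ : ℝ, Λ = Real.log (1 / θ) := ⟨_, rfl⟩
  have hΛeq : Real.log θ = -Λ := by
    rw [hΛ, one_div, Real.log_inv, neg_neg]
  have hΛge : max Λ0 1 ≤ Λ := by
    have := Real.log_lt_log hθ0 hθ1
    rw [Real.log_exp, hΛeq] at this
    linarith
  obtain ⟨b1, b2, b3⟩ := hΛ0 Λ ((le_max_left _ _).trans hΛge)
  have hΛ0' : 0 < Λ := by linarith
  have hε' : 0 < 1 - ε := by linarith
  rw [← hΛ]
  have hθ1' : θ ≤ 1 := by
    refine hθ1.le.trans ?_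
    rw [Real.exp_le_one_iff]
    have := le_max_right Λ0 1
    linarith
  -- `y = θ / Λ`
  obtain ⟨y, hy⟩ : ∃ y : ℝ, y = θ / Λ := ⟨_, rfl⟩
  have hy0 : 0 < y := by rw [hy]; positivity
  have hyΛ : y * Λ = θ := by rw [hy]; field_simp
  have hyC : 2 * C * y ≤ 1 := by
    have : 2 * C * y ≤ Λ * y := mul_le_mul_of_nonneg_right b3 hy0.le
    nlinarith
  rw [← hy]
  refine ⟨⌈(max C (16 / ε)) * 2 / ((1 - ε) * y)⌉₊, ?_⟩
  intro k hk
  have hk1 : (max C (16 / ε)) * 2 / ((1 - ε) * y) ≤ k := (Nat.le_ceil _).trans (by exact_mod_cast hk)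
  rw [div_le_iff₀ (by positivity)] at hk1
  have hk2 : C * 2 ≤ (1 - ε) * y * k := by
    have := mul_le_mul_of_nonneg_right (le_max_left C (16 / ε)) (show (0 : ℝ) ≤ 2 by norm_num)
    nlinarith
  have hk3 : 16 / ε * 2 ≤ (1 - ε) * y * k := by
    have := mul_le_mul_of_nonneg_right (le_max_right C (16 / ε)) (show (0 : ℝ) ≤ 2 by norm_num)
    nlinarith
  have hkn : (0 : ℝ) ≤ k := Nat.cast_nonneg _
  have hyk : C * 2 ≤ y * k := by
    have : 0 ≤ ε * (y * k) := by positivity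
    nlinarith
  have hk0 : (0 : ℝ) < k := by
    rcases hkn.lt_or_eq with h | h
    · exact h
    · rw [← h] at hyk
      nlinarith
  have hkC : 1 ≤ k := by
    exact_mod_cast hk0
  constructor
  · -- upper bound for the size
    intro n c hsym hmono hn d hd
    by_contra hcon
    push Not at hcon
    obtain ⟨x, hx⟩ : ∃ x : ℝ, x = (1 - ε) * y * k := ⟨_, rfl⟩
    have hx0 : 0 < x := by rw [hx]; positivity
    rw [← hx] at hcon hk2
    have hdx : d ≤ ⌊x⌋₊ := Nat.le_floor hcon.le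
    have hd2 : ¬ ITree c (⌊x⌋₊ + 1) Set.univ := noITree_mono hdx hd
    have hfl : (⌊x⌋₊ : ℝ) ≤ x := Nat.floor_le hx0.le
    have hfl2 : x / 2 ≤ (⌊x⌋₊ : ℝ) := by
      have := Nat.lt_floor_add_one x
      linarith
    have hf0 : (0 : ℝ) < (⌊x⌋₊ : ℝ) := by linarith
    have hxy : x ≤ y * k := by
      rw [hx]
      have : 0 ≤ ε * (y * k) := by positivity
      nlinarith
    have hCx : C * (⌊x⌋₊ : ℝ) ≤ k := by
      have e1 : C * (⌊x⌋₊ : ℝ) ≤ C * (y * k) :=
        mul_le_mul_of_nonneg_left (hfl.trans hxy) (by linarith)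
      have e2 : 2 * C * y * k ≤ 1 * k := mul_le_mul_of_nonneg_right hyC hkn
      nlinarith
    have h1 : n ≤ largestI r ⌊x⌋₊ k := le_largestI hkC ⟨c, hsym, hd2, hmono⟩
    have h2 := hup ⌊x⌋₊ k (by
      have : C1 ≤ C := le_max_left _ _
      linarith) ((mul_le_mul_of_nonneg_right (le_max_left C1 C2) hf0.le).trans hCx)
    have hn0 : (0 : ℝ) < n := lt_of_lt_of_le (Real.exp_pos _) hn
    have h3 : θ * k ≤ Real.log (largestI r ⌊x⌋₊ k) := by
      have e1 : θ * k ≤ Real.log n := by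
        rw [Real.le_log_iff_exp_le hn0]; exact hn
      exact e1.trans (Real.log_le_log hn0 (by exact_mod_cast h1))
    -- the logarithm
    have h4 : Real.log (k / (⌊x⌋₊ : ℝ)) ≤ Λ + Real.log (2 * Λ / (1 - ε)) := by
      have e1 : (k : ℝ) / (⌊x⌋₊ : ℝ) ≤ (2 * Λ / (1 - ε)) / θ := by
        rw [div_le_div_iff₀ hf0 hθ0]
        have e2 : (2 * Λ / (1 - ε)) * (x / 2) = k * θ := by
          rw [hx, ← hyΛ]
          field_simp
        calc (k : ℝ) * θ = (2 * Λ / (1 - ε)) * (x / 2) := e2.symm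
          _ ≤ (2 * Λ / (1 - ε)) * (⌊x⌋₊ : ℝ) := by
              apply mul_le_mul_of_nonneg_left hfl2 (by positivity)
      have e3 := Real.log_le_log (by positivity) e1
      rw [Real.log_div (by positivity) hθ0.ne', hΛeq] at e3
      linarith
    have h5 : Λ + Real.log (2 * Λ / (1 - ε)) ≤ (1 + ε / 8) * Λ := by
      have e1 := mul_le_mul_of_nonneg_right b1 hΛ0'.le
      rw [add_mul, div_mul_cancel₀ _ hΛ0'.ne', one_mul] at e1
      exact e1
    have h6 : (⌊x⌋₊ : ℝ) * Real.log (k / (⌊x⌋₊ : ℝ)) ≤ x * ((1 + ε / 8) * Λ) := by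
      have e1 : (0 : ℝ) ≤ (1 + ε / 8) * Λ := by positivity
      calc (⌊x⌋₊ : ℝ) * Real.log (k / (⌊x⌋₊ : ℝ)) ≤ (⌊x⌋₊ : ℝ) * ((1 + ε / 8) * Λ) :=
            mul_le_mul_of_nonneg_left (h4.trans h5) hf0.le
        _ ≤ x * ((1 + ε / 8) * Λ) := mul_le_mul_of_nonneg_right hfl e1
    have h7 : x * ((1 + ε / 8) * Λ) = (1 - ε) * (1 + ε / 8) * (θ * k) := by
      rw [hx, ← hyΛ]; ring
    have h8 : θ * k ≤ (1 + ε / 8) * ((1 - ε) * (1 + ε / 8) * (θ * k)) := by
      refine h3.trans (h2.trans ?_)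
      rw [← h7]
      exact mul_le_mul_of_nonneg_left h6 (by positivity)
    have h9 : 0 < θ * k := by positivity
    have h10 : (1 + ε / 8) * ((1 - ε) * (1 + ε / 8)) < 1 := by nlinarith [sq_nonneg ε, mul_pos hε hε]
    nlinarith
  · -- existence
    obtain ⟨x, hx⟩ : ∃ x : ℝ, x = (1 + ε) * y * k := ⟨_, rfl⟩
    have hx0 : 0 < x := by rw [hx]; positivity
    rw [← hx]
    have hxyk : y * k ≤ x := by
      rw [hx]
      have : 0 ≤ ε * (y * k) := by positivity
      nlinarith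
    have hx16 : 16 / ε ≤ x := by
      have e1 : (1 - ε) * y * k ≤ y * k := by
        have : 0 ≤ ε * (y * k) := by positivity
        nlinarith
      have e2 : 0 ≤ 16 / ε := by positivity
      linarith
    have hfl : (⌊x⌋₊ : ℝ) ≤ x := Nat.floor_le hx0.le
    have hfl2 : (1 - ε / 8) * x ≤ (⌊x⌋₊ : ℝ) := by
      have e1 := Nat.lt_floor_add_one x
      rw [div_le_iff₀ hε] at hx16
      nlinarith
    have hfl3 : C ≤ (⌊x⌋₊ : ℝ) := by
      have e1 := Nat.lt_floor_add_one x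
      linarith
    have hf0 : (0 : ℝ) < (⌊x⌋₊ : ℝ) := by linarith
    have hCx : C * (⌊x⌋₊ : ℝ) ≤ k := by
      have e1 : C * (⌊x⌋₊ : ℝ) ≤ C * x := mul_le_mul_of_nonneg_left hfl (by linarith)
      have e2 : 2 * C * y * k ≤ 1 * k := mul_le_mul_of_nonneg_right hyC hkn
      have e3 : C * x ≤ 2 * C * y * k := by
        rw [hx]
        have : 0 ≤ (1 - ε) * (C * y * k) := by
          have : 0 ≤ C * y * k := by
            have : 0 ≤ C := by linarith
            positivity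
          positivity
        nlinarith
      linarith
    have h2 := hlo ⌊x⌋₊ k ((le_max_right _ _).trans hfl3)
      ((mul_le_mul_of_nonneg_right (le_max_right C1 C2) hf0.le).trans hCx)
    obtain ⟨c, g1, g2, g3⟩ := largest_good (r := r) (d := ⌊x⌋₊) hkC
    refine ⟨largest r ⌊x⌋₊ k, c, g1, g3, ?_, g2⟩
    -- the logarithm
    have h4 : Λ ≤ Real.log (k / (⌊x⌋₊ : ℝ)) := by
      have e1 : (1 : ℝ) / θ ≤ k / (⌊x⌋₊ : ℝ) := by
        rw [div_le_div_iff₀ hθ0 hf0, one_mul]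
        calc (⌊x⌋₊ : ℝ) ≤ (1 + ε) * y * k := by rw [← hx]; exact hfl
          _ ≤ Λ * y * k := by
              apply mul_le_mul_of_nonneg_right _ hkn
              exact mul_le_mul_of_nonneg_right (by linarith) hy0.le
          _ = k * θ := by rw [← hyΛ]; ring
      have e2 := Real.log_le_log (by positivity) e1
      rwa [← hΛ] at e2
    have h5 : (1 - ε / 8) * x * Λ ≤ (⌊x⌋₊ : ℝ) * Real.log (k / (⌊x⌋₊ : ℝ)) :=
      mul_le_mul hfl2 h4 hΛ0'.le hf0.le
    have h6 : θ * k ≤ Real.log (largest r ⌊x⌋₊ k) := by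
      refine le_trans ?_ h2
      have e1 : (0 : ℝ) ≤ 1 - ε / 8 := by linarith
      refine le_trans ?_ (mul_le_mul_of_nonneg_left h5 e1)
      have e2 : x * Λ = (1 + ε) * (θ * k) := by rw [hx, ← hyΛ]; ring
      have e3 : (1 - ε / 8) * ((1 - ε / 8) * x * Λ) =
          (1 - ε / 8) * (1 - ε / 8) * (1 + ε) * (θ * k) := by
        calc (1 - ε / 8) * ((1 - ε / 8) * x * Λ) = (1 - ε / 8) * (1 - ε / 8) * (x * Λ) := by ring
          _ = _ := by rw [e2]; ring
      rw [e3]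
      have e4 : (1 : ℝ) ≤ (1 - ε / 8) * (1 - ε / 8) * (1 + ε) := by nlinarith [sq_nonneg ε]
      have e5 : 0 ≤ θ * k := by positivity
      nlinarith
    have h7 : (0 : ℝ) < (largest r ⌊x⌋₊ k : ℝ) := by
      have h8 : (1 : ℕ) ≤ largest r ⌊x⌋₊ k := by
        by_contra h9
        have h10 : largest r ⌊x⌋₊ k = 0 := by omega
        rw [h10, Nat.cast_zero, Real.log_zero] at h6
        have : 0 < θ * k := by positivity
        linarith
      exact_mod_cast h8
    rwa [Real.le_log_iff_exp_le h7] at h6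

end Pool.Agent.H40.Litt
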