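import Mathlib

set_option autoImplicit false

/-!
# Colourings of bounded Littlestone dimension

Definitions, and the upper bound for the number of vertices of an `r`-colouring of Littlestone
dimension at most `d` without one-coloured set of `k` vertices.
-/

namespace Pool.Agent.H40.Litt

open Finset

/-- The colouring `c` of the pairs of vertices is symmetric. -/
def Sym {V : Type} {r : ℕ} (c : V → V → Fin r) : Prop := ∀ x y, c x y = c y x

/-- The vertices `u ≠ v` of `S` such that the pair `v, u` has colour `i`. -/
def nb {V : Type} {r : ℕ} (c : V → V → Fin r) (S : Set V) (v : V) (i : Fin r) : Set V :=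
  {u | u ∈ S ∧ u ≠ v ∧ c v u = i}

/-- `Tree c t S`: there is a complete binary tree of depth `t` whose inner nodes are labelled by
vertices, the two edges from every inner node to its children are labelled by two different colours,
and every leaf is labelled by a vertex of `S` which is joined to the vertices on the path from the
root by the colours of the edges of the path. -/
def Tree {V : Type} {r : ℕ} (c : V → V → Fin r) : ℕ → Set V → Prop
  | 0, S => S.Nonempty
  | t + 1, S => ∃ (v : V) (i j : Fin r), i ≠ j ∧ Tree c t (nb c S v i) ∧ Tree c t (nb c S v j)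

/-- `ITree c t S`: the same with inner nodes in `S` that are joined to their ancestors as well by the
colours of the edges of the path, that is, a complete binary Erdős–Szekeres tree of depth `t` inside
`S`: every label of a node (inner node or leaf) is joined to the labels of the nodes above it by the
colours of the edges that lead from these towards it. -/
def ITree {V : Type} {r : ℕ} (c : V → V → Fin r) : ℕ → Set V → Prop
  | 0, S => S.Nonempty
  | t + 1, S => ∃ v ∈ S, ∃ i j : Fin r, i ≠ j ∧ ITree c t (nb c S v i) ∧ ITree c t (nb c S v j)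

/-- The Littlestone dimension of the colouring `c` is at most `d`. -/
def LdimLE {V : Type} {r : ℕ} (c : V → V → Fin r) (d : ℕ) : Prop :=
  ¬ Tree c (d + 1) Set.univ

/-- All pairs of elements of `S` have the same colour. -/
def Mono {V : Type} {r : ℕ} (c : V → V → Fin r) (S : Finset V) : Prop :=
  ∃ i : Fin r, ∀ x ∈ S, ∀ y ∈ S, x ≠ y → c x y = i

/-- There is no one-coloured set of `k` vertices. -/
def NoMono {V : Type} {r : ℕ} (c : V → V → Fin r) (k : ℕ) : Prop :=
  ∀ S : Finset V, S.card = k → ¬ Mono c S

theorem nb_mono {V : Type} {r : ℕ} (c : V → V → Fin r) {S S' : Set V} (h : S ⊆ S') (v : V)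
    (i : Fin r) : nb c S v i ⊆ nb c S' v i := fun _ hu => ⟨h hu.1, hu.2⟩

theorem Tree.mono {V : Type} {r : ℕ} {c : V → V → Fin r} {t : ℕ} :
    ∀ {S S' : Set V}, S ⊆ S' → Tree c t S → Tree c t S' := by
  induction t with
  | zero => intro S S' h hS; exact Set.Nonempty.mono h hS
  | succ t ih =>
    rintro S S' h ⟨v, i, j, hij, h1, h2⟩
    exact ⟨v, i, j, hij, ih (nb_mono c h v i) h1, ih (nb_mono c h v j) h2⟩

theorem Tree.pred {V : Type} {r : ℕ} {c : V → V → Fin r} {t : ℕ} {S : Set V}
    (h : Tree c (t + 1) S) : Tree c t S := by
  obtain ⟨v, i, j, -, h1, -⟩ := h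
  exact h1.mono (fun u hu => hu.1)

theorem ITree.mono {V : Type} {r : ℕ} {c : V → V → Fin r} {t : ℕ} :
    ∀ {S S' : Set V}, S ⊆ S' → ITree c t S → ITree c t S' := by
  induction t with
  | zero => intro S S' h hS; exact Set.Nonempty.mono h hS
  | succ t ih =>
    rintro S S' h ⟨v, hv, i, j, hij, h1, h2⟩
    exact ⟨v, h hv, i, j, hij, ih (nb_mono c h v i) h1, ih (nb_mono c h v j) h2⟩

theorem ITree.pred {V : Type} {r : ℕ} {c : V → V → Fin r} {t : ℕ} {S : Set V}
    (h : ITree c (t + 1) S) : ITree c t S := by
  obtain ⟨v, -, i, j, -, h1, -⟩ := h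
  exact h1.mono (fun u hu => hu.1)

theorem ITree.tree {V : Type} {r : ℕ} {c : V → V → Fin r} {t : ℕ} :
    ∀ {S : Set V}, ITree c t S → Tree c t S := by
  induction t with
  | zero => intro S h; exact h
  | succ t ih =>
    rintro S ⟨v, -, i, j, hij, h1, h2⟩
    exact ⟨v, i, j, hij, ih h1, ih h2⟩

/-- A tree of depth `t` has `2 ^ t` different leaves. -/
theorem Tree.leaves {V : Type} {r : ℕ} {c : V → V → Fin r} {t : ℕ} :
    ∀ {S : Set V}, Tree c t S → ∃ B : Finset V, (B : Set V) ⊆ S ∧ B.card = 2 ^ t := by
  classical
  induction t with
  | zero =>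
    rintro S ⟨x, hx⟩
    exact ⟨{x}, by simpa using hx, by simp⟩
  | succ t ih =>
    rintro S ⟨v, i, j, hij, h1, h2⟩
    obtain ⟨B1, hB1, hc1⟩ := ih h1
    obtain ⟨B2, hB2, hc2⟩ := ih h2
    refine ⟨B1 ∪ B2, ?_, ?_⟩
    · intro x hx
      rw [coe_union] at hx
      rcases hx with hx | hx
      · exact (hB1 hx).1
      · exact (hB2 hx).1
    · rw [card_union_of_disjoint, hc1, hc2, pow_succ]
      · ring
      · rw [disjoint_left]
        intro x hx hx'
        have e1 := (hB1 hx).2.2
        have e2 := (hB2 hx').2.2
        exact hij (e1.symm.trans e2)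

/-- Every colouring of at most `2 ^ d` vertices has Littlestone dimension at most `d`. -/
theorem ldim_of_card {V : Type} [Fintype V] {r : ℕ} (c : V → V → Fin r) (d : ℕ)
    (h : Fintype.card V ≤ 2 ^ d) : LdimLE c d := by
  intro hT
  obtain ⟨B, -, hB⟩ := hT.leaves
  have h1 : B.card ≤ Fintype.card V := card_le_univ B
  have h2 : 2 ^ (d + 1) ≤ 2 ^ d := by omega
  have h3 : 2 ^ d < 2 ^ (d + 1) := Nat.pow_lt_pow_right (by norm_num) (by omega)
  omega

/-- the bound -/
def bnd (r d m : ℕ) : ℕ := ∑ j ∈ range d, (r - 1) ^ j * m.choose (j + 1)

theorem bnd_succ (r d m : ℕ) : bnd r (d + 1) (m + 1) = 1 + bnd r (d + 1) m + (r - 1) * bnd r d m := by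
  unfold bnd
  rw [sum_range_succ' (fun j => (r - 1) ^ j * (m + 1).choose (j + 1)) d,
    sum_range_succ' (fun j => (r - 1) ^ j * m.choose (j + 1)) d, mul_sum]
  simp only [zero_add, pow_zero, one_mul, Nat.choose_one_right]
  have e : ∀ j, (r - 1) ^ (j + 1) * (m + 1).choose (j + 1 + 1) =
      (r - 1) ^ (j + 1) * m.choose (j + 1 + 1) + (r - 1) * ((r - 1) ^ j * m.choose (j + 1)) := by
    intro j
    rw [Nat.choose_succ_succ]
    ring
  rw [sum_congr rfl (fun j _ => e j), sum_add_distrib]
  omega

theorem bnd_mono_d {r d d' m : ℕ} (h : d ≤ d') : bnd r d m ≤ bnd r d' m := by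
  unfold bnd
  exact sum_le_sum_of_subset (range_mono h)

/-- **The finite upper bound**, general form. -/
theorem upper {V : Type} {r : ℕ} (c : V → V → Fin r) (hsym : Sym c) :
    ∀ (m d : ℕ) (k : Fin r → ℕ) (S : Finset V), ∑ i, k i = m →
      (∀ i, ∀ T ⊆ S, (∀ x ∈ T, ∀ y ∈ T, x ≠ y → c x y = i) → T.card ≤ k i) →
      ¬ ITree c d (S : Set V) → S.card ≤ bnd r d m := by
  classical
  intro m
  induction m with
  | zero =>
    intro d k S hk hS _
    rcases S.eq_empty_or_nonempty with h | ⟨v, hv⟩
    · rw [h]; simp
    · exfalso
      have h1 := hS (c v v) {v} (by simpa using hv) (by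
        intro x hx y hy hxy
        rw [mem_singleton] at hx hy
        exact absurd (hx.trans hy.symm) hxy)
      have h2 : k (c v v) ≤ ∑ i, k i := single_le_sum (fun i _ => Nat.zero_le _) (mem_univ _)
      rw [card_singleton] at h1
      omega
  | succ m ih =>
    intro d k S hk hS hT
    rcases S.eq_empty_or_nonempty with h | ⟨v, hv⟩
    · rw [h]; simp
    cases d with
    | zero => exact absurd ⟨v, hv⟩ hT
    | succ d =>
      -- the parts
      set P : Fin r → Finset V := fun i => S.filter (fun u => u ≠ v ∧ c v u = i) with hP
      have hPn : ∀ i, ((P i : Finset V) : Set V) = nb c (S : Set V) v i := by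
        intro i
        ext u
        simp [hP, nb]
      have hki : ∀ i, 1 ≤ k i := by
        intro i
        have h1 := hS i {v} (by simpa using hv) (by
          intro x hx y hy hxy
          rw [mem_singleton] at hx hy
          exact absurd (hx.trans hy.symm) hxy)
        simpa using h1
      have hcard : S.card = 1 + ∑ i, (P i).card := by
        have e1 : S = insert v (univ.biUnion P) := by
          ext u
          simp only [hP, mem_insert, mem_biUnion, mem_univ, true_and, mem_filter]
          constructor
          · intro hu
            by_cases huv : u = v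
            · exact Or.inl huv
            · exact Or.inr ⟨c v u, hu, huv, rfl⟩
          · rintro (rfl | ⟨i, hu, -, -⟩)
            · exact hv
            · exact hu
        have e2 : v ∉ univ.biUnion P := by
          simp [hP]
        have e3 : (univ.biUnion P).card = ∑ i, (P i).card := by
          apply card_biUnion
          intro i _ j _ hij
          change Disjoint (P i) (P j)
          rw [disjoint_left]
          intro u hu hu'
          simp only [hP, mem_filter] at hu hu'
          exact hij (hu.2.2.symm.trans hu'.2.2)
        calc S.card = (insert v (univ.biUnion P)).card := by rw [← e1]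
          _ = 1 + ∑ i, (P i).card := by rw [card_insert_of_notMem e2, e3]; ring
      have hpart : ∀ (i : Fin r) (d' : ℕ), ¬ ITree c d' ((P i : Finset V) : Set V) →
          (P i).card ≤ bnd r d' m := by
        intro i d' hd'
        refine ih d' (Function.update k i (k i - 1)) (P i) ?_ ?_ hd'
        · have e1 := Finset.sum_update_of_mem (mem_univ i) k (k i - 1)
          have e2 := Finset.add_sum_erase univ k (mem_univ i)
          rw [e1, sdiff_singleton_eq_erase]
          have := hki i
          omega
        · intro j T hTP hTc
          by_cases hji : j = i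
          · subst hji
            rw [Function.update_self]
            have h1 := hS j (insert v T) (by
              intro x hx
              rw [mem_insert] at hx
              rcases hx with rfl | hx
              · exact hv
              · exact (mem_filter.1 (hTP hx)).1) (by
              intro x hx y hy hxy
              rw [mem_insert] at hx hy
              rcases hx with rfl | hx
              · rcases hy with rfl | hy
                · exact absurd rfl hxy
                · exact (mem_filter.1 (hTP hy)).2.2
              · rcases hy with rfl | hy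
                · rw [hsym]; exact (mem_filter.1 (hTP hx)).2.2
                · exact hTc x hx y hy hxy)
            have h2 : v ∉ T := fun h => (mem_filter.1 (hTP h)).2.1 rfl
            rw [card_insert_of_notMem h2] at h1
            omega
          · rw [Function.update_of_ne hji]
            exact hS j T (hTP.trans (filter_subset _ _)) hTc
      obtain ⟨i0, hi0⟩ : ∃ i0 : Fin r, ∀ i, i ≠ i0 → ¬ ITree c d ((P i : Finset V) : Set V) := by
        by_cases hex : ∃ i0, ITree c d ((P i0 : Finset V) : Set V)
        · obtain ⟨i0, h0⟩ := hex
          refine ⟨i0, fun i hi h1 => hT ?_⟩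
          rw [hPn] at h0 h1
          exact ⟨v, hv, i, i0, hi, h1, h0⟩
        · push Not at hex
          exact ⟨c v v, fun i _ => hex i⟩
      have hbig : (P i0).card ≤ bnd r (d + 1) m := by
        apply hpart
        intro h1
        exact hT (h1.mono (by rw [hPn]; exact fun u hu => hu.1))
      have hrest : ∑ i ∈ univ.erase i0, (P i).card ≤ (r - 1) * bnd r d m := by
        calc ∑ i ∈ univ.erase i0, (P i).card ≤ ∑ _i ∈ univ.erase i0, bnd r d m :=
              sum_le_sum (fun i hi => hpart i d (hi0 i (ne_of_mem_erase hi)))
          _ = (r - 1) * bnd r d m := by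
              rw [sum_const, card_erase_of_mem (mem_univ _), card_univ, Fintype.card_fin,
                smul_eq_mul]
      have hsum := Finset.add_sum_erase univ (fun i => (P i).card) (mem_univ i0)
      rw [bnd_succ, hcard, ← hsum]
      have : (fun i => (P i).card) i0 = (P i0).card := rfl
      omega

/-- **The finite upper bound.** -/
theorem upper_bound {V : Type} [Fintype V] {r : ℕ} (c : V → V → Fin r) (hsym : Sym c) {d k : ℕ}
    (hk : 1 ≤ k) (hd : ¬ ITree c (d + 1) Set.univ) (hc : NoMono c k) :
    Fintype.card V ≤ ∑ j ∈ range (d + 1), (r - 1) ^ j * (r * (k - 1)).choose (j + 1) := by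
  classical
  have h := upper c hsym (r * (k - 1)) (d + 1) (fun _ => k - 1) univ (by simp) (by
    intro i T _ hT
    by_contra hcon
    push Not at hcon
    obtain ⟨T', hT', hc'⟩ := Finset.exists_subset_card_eq (show k ≤ T.card by omega)
    exact hc T' hc' ⟨i, fun x hx y hy hxy => hT x (hT' hx) y (hT' hy) hxy⟩) (by
    rw [coe_univ]; exact hd)
  rw [card_univ] at h
  exact h

end Pool.Agent.H40.Litt
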